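import Pool.Agent.Q156.BanD

/-!
Vector balancing in a convex body whose Gaussian barycenter is the origin: `β(B_2^n, V) ≤ g(γ_n(V))`
with `g(p) = 100 √2 (1 + 80 / p^3)`.
-/

set_option autoImplicit false

open MeasureTheory ProbabilityTheory Set

namespace Pool.Agent.Results.MP_0ffb5f_gt.BarycenterBound

open Pool.Agent.Q156.Ban

/-- There is a non-increasing function `g` on `(0,1]`, not depending on the dimension, with
`β(B_2^n, V) ≤ g(γ_n(V))` for all convex bodies `V` with the origin in the interior and with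
Gaussian barycenter at the origin. -/
theorem result : ∃ g : ℝ → ℝ, (∀ p, g p = 100 * Real.sqrt 2 * (1 + 80 / p ^ 3)) ∧
    AntitoneOn g (Ioc 0 1) ∧ (∀ p ∈ Ioc (0 : ℝ) 1, 0 ≤ g p) ∧
    ∀ n : ℕ, 1 ≤ n → ∀ V : Set (EuclideanSpace ℝ (Fin n)), IsCompact V → Convex ℝ V →
      (0 : EuclideanSpace ℝ (Fin n)) ∈ interior V →
      ∫ x in V, x ∂(stdGaussian (EuclideanSpace ℝ (Fin n))) = 0 →
      beta V ≤ ENNReal.ofReal (g (stdGaussian (EuclideanSpace ℝ (Fin n)) V).toReal) := by
  refine ⟨G, fun p => rfl, G_anti.mono Ioc_subset_Ioi_self, fun p hp => (G_pos p hp.1).le, ?_⟩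
  intro n _ V hV hc h0 hb
  exact beta_le V hV.isClosed hc h0 hb

end Pool.Agent.Results.MP_0ffb5f_gt.BarycenterBound
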